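import Mathlib

/-!
# The top h-number cannot always be lowered by one inside the basis family

For every `d ≥ 2` we give a matroid of rank `d` without loops and coloops, with top h-number `4`,
such that no matroid of rank `d` on the same ground set, all of whose bases are bases of the given
one, has top h-number `3`.
-/

set_option autoImplicit false

open Set

namespace Pool.Agent.Results.MP_35fef3_co.NoSubfamilyOneLess

/-- The number of independent sets of size `i`. -/
noncomputable def indepCount {α : Type} (M : Matroid α) (i : ℕ) : ℕ :=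
  {I : Set α | M.Indep I ∧ I.ncard = i}.ncard

/-- The top entry `h_d` of the h-vector of a matroid of rank `d`. -/
noncomputable def topH {α : Type} (M : Matroid α) (d : ℕ) : ℤ :=
  ∑ i ∈ Finset.range (d + 1), (-1) ^ (d - i) * (indepCount M i : ℤ)

/-! ### The alternating sum over all independent sets -/

open Classical in
/-- the alternating sum over the independent sets -/
noncomputable def altSum {α : Type} [Fintype α] (M : Matroid α) : ℤ :=
  ∑ I : Set α, if M.Indep I then (-1) ^ I.ncard else 0

theorem topH_eq {α : Type} [Fintype α] (M : Matroid α) (d : ℕ)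
    (h : ∀ I, M.Indep I → I.ncard ≤ d) : topH M d = (-1) ^ d * altSum M := by
  classical
  unfold topH altSum
  have h1 : ∀ i ∈ Finset.range (d + 1), (-1 : ℤ) ^ (d - i) * (indepCount M i : ℤ)
      = ∑ I : Set α, if M.Indep I ∧ I.ncard = i then (-1) ^ d * (-1) ^ I.ncard else 0 := by
    intro i hi
    have hi' : i ≤ d := Nat.lt_succ_iff.1 (Finset.mem_range.1 hi)
    have h2 : (indepCount M i : ℤ) = ∑ I : Set α, if M.Indep I ∧ I.ncard = i then 1 else 0 := by
      unfold indepCount
      rw [Set.ncard_eq_toFinset_card', Finset.card_eq_sum_ones, Nat.cast_sum,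
        ← Finset.sum_filter]
      refine Finset.sum_congr ?_ fun _ _ => by simp
      ext I
      simp
    rw [h2, Finset.mul_sum]
    refine Finset.sum_congr rfl fun I _ => ?_
    split_ifs with h3
    · rw [h3.2, mul_one, ← pow_add]
      have : d + i = (d - i) + 2 * i := by omega
      rw [this, pow_add, pow_mul]
      simp
    · simp
  rw [Finset.sum_congr rfl h1, Finset.sum_comm, Finset.mul_sum]
  refine Finset.sum_congr rfl fun I _ => ?_
  by_cases hI : M.Indep I
  · simp only [hI, true_and, if_true]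
    rw [Finset.sum_ite_eq, if_pos]
    exact Finset.mem_range.2 (Nat.lt_succ_of_le (h I hI))
  · simp [hI]

/-! ### Direct sum with two parallel elements -/

/-- the rank-one uniform matroid on two elements -/
def two : Matroid Bool :=
  (IndepMatroid.ofFinitaryCardAugment univ (fun X => X.Subsingleton)
    subsingleton_empty
    (fun _ _ hY hXY => hY.anti hXY)
    (fun X Y hX fX hY fY hlt => by
      have h1 : Y.ncard ≤ 1 := by
        rcases hY.eq_empty_or_singleton with h | ⟨y, h⟩
        · rw [h, ncard_empty]; exact Nat.zero_le _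
        · rw [h, ncard_singleton]
      have h2 : X = ∅ := (ncard_eq_zero fX).1 (by omega)
      have h3 : Y.Nonempty := (ncard_pos fY).1 (by omega)
      obtain ⟨y, hy⟩ := h3
      refine ⟨y, hy, by simp [h2], ?_⟩
      rw [h2]; simp)
    (fun Y hY => by
      intro x hx y hy
      exact (hY {x, y} (by
        rintro z (rfl | rfl)
        · exact hx
        · exact hy) (by simp)) (by simp) (by simp))
    (fun X hX => subset_univ _)).matroid

theorem two_ground : two.E = univ := rfl

theorem two_indep (X : Set Bool) : two.Indep X ↔ X.Subsingleton := Iff.rfl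

theorem two_isBase (B : Set Bool) : two.IsBase B ↔ ∃ b, B = {b} := by
  rw [Matroid.isBase_iff_maximal_indep]
  constructor
  · intro h
    have h1 := (two_indep B).1 h.1
    rcases h1.eq_empty_or_singleton with h2 | ⟨b, h2⟩
    · exfalso
      have h3 := h.2 ((two_indep {true}).2 subsingleton_singleton)
        (by rw [h2]; exact empty_subset _)
      have h4 : true ∈ B := h3 rfl
      rw [h2] at h4
      exact h4
    · exact ⟨b, h2⟩
  · rintro ⟨a, rfl⟩
    refine ⟨(two_indep {a}).2 subsingleton_singleton, ?_⟩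
    intro Y hY hY' y hy
    exact ((two_indep Y).1 hY) hy (hY' rfl)

/-- a subset of a sum is the union of its two parts -/
theorem split {α : Type} (X : Set (α ⊕ Bool)) :
    X = Sum.inl '' (Sum.inl ⁻¹' X) ∪ Sum.inr '' (Sum.inr ⁻¹' X) := by
  ext x
  rcases x with x | x <;> simp

/-- a matroid on `α ⊕ Bool` in which every base meets `Bool` in one element and the two elements of
`Bool` are interchangeable is a direct sum -/
theorem indep_of_swap {α : Type} [Finite α] (L : Matroid (α ⊕ Bool))
    (h1 : ∀ B, L.IsBase B → ∃ b, Sum.inr ⁻¹' B = {b})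
    (h2 : ∀ (C : Set α) (b c : Bool), L.IsBase (Sum.inl '' C ∪ {Sum.inr b}) →
      L.IsBase (Sum.inl '' C ∪ {Sum.inr c})) (X : Set (α ⊕ Bool)) :
    L.Indep X ↔ (L.comap Sum.inl).Indep (Sum.inl ⁻¹' X) ∧ (Sum.inr ⁻¹' X).Subsingleton := by
  rw [Matroid.comap_indep_iff]
  constructor
  · intro h
    refine ⟨⟨h.subset (image_preimage_subset _ _), Sum.inl_injective.injOn⟩, ?_⟩
    obtain ⟨B, hB, hXB⟩ := h.exists_isBase_superset
    obtain ⟨b, hb⟩ := h1 B hB
    have : Sum.inr ⁻¹' X ⊆ {b} := by
      rw [← hb]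
      exact preimage_mono hXB
    exact subsingleton_singleton.anti this
  · rintro ⟨⟨h3, -⟩, h4⟩
    obtain ⟨B, hB, hXB⟩ := h3.exists_isBase_superset
    obtain ⟨b, hb⟩ := h1 B hB
    have hB' := split B
    rw [hb, image_singleton] at hB'
    have h5 : Sum.inl ⁻¹' X ⊆ Sum.inl ⁻¹' B := fun x hx => hXB ⟨x, hx, rfl⟩
    rcases h4.eq_empty_or_singleton with h6 | ⟨c, h6⟩
    · rw [split X, h6, image_empty, union_empty]
      exact h3
    · rw [hB'] at hB
      refine (h2 _ b c hB).indep.subset ?_
      rw [split X, h6, image_singleton]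
      exact union_subset_union_left _ (image_mono h5)

open Classical in
theorem sum_bool : (∑ J : Set Bool, if J.Subsingleton then (-1 : ℤ) ^ J.ncard else 0) = -1 := by
  have h1 : (∑ J : Set Bool, if J.Subsingleton then (-1 : ℤ) ^ J.ncard else 0)
      = ∑ J : Finset Bool, if J.card ≤ 1 then (-1 : ℤ) ^ J.card else 0 := by
    symm
    refine Fintype.sum_equiv (Fintype.finsetEquivSet) _ _ fun J => ?_
    have h : (Fintype.finsetEquivSet J) = (J : Set Bool) := rfl
    rw [h, ncard_coe_finset]
    have h2 : (J : Set Bool).Subsingleton ↔ J.card ≤ 1 := by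
      rw [Finset.card_le_one]
      exact ⟨fun h a ha b hb => h ha hb, fun h a ha b hb => h a ha b hb⟩
    by_cases h3 : J.card ≤ 1
    · rw [if_pos h3, if_pos (h2.2 h3)]
    · rw [if_neg h3, if_neg fun h => h3 (h2.1 h)]
  rw [h1]
  decide

open Classical in
theorem altSum_coloop {α : Type} [Fintype α] (M : Matroid α) (e : α)
    (h : ∀ B, M.IsBase B → e ∈ B) : altSum M = 0 := by
  unfold altSum
  have hc : ∀ I : Set α, M.Indep I → M.Indep (insert e I) := by
    intro I hI
    obtain ⟨B, hB, hIB⟩ := hI.exists_isBase_superset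
    exact hB.indep.subset (insert_subset (h B hB) hIB)
  refine Finset.sum_involution (fun I _ => if e ∈ I then I \ {e} else insert e I) ?_ ?_ ?_ ?_
  · intro I _
    by_cases heI : e ∈ I
    · simp only [heI, if_true]
      have h1 : M.Indep (I \ {e}) ↔ M.Indep I := by
        constructor
        · intro h2
          have := hc _ h2
          rwa [insert_sdiff_singleton, insert_eq_of_mem heI] at this
        · intro h2
          exact h2.subset sdiff_subset
      rw [h1]
      split_ifs with h3
      · rw [← ncard_sdiff_singleton_add_one heI, pow_succ]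
        ring
      · simp
    · simp only [heI, if_false]
      have h1 : M.Indep (insert e I) ↔ M.Indep I :=
        ⟨fun h2 => h2.subset (subset_insert _ _), hc I⟩
      rw [h1]
      split_ifs with h3
      · rw [ncard_insert_of_notMem heI, pow_succ]
        ring
      · simp
  · intro I _ _
    by_cases heI : e ∈ I
    · simp only [heI, if_true]
      intro h2
      rw [← h2] at heI
      exact heI.2 rfl
    · simp only [heI, if_false]
      intro h2
      rw [← h2] at heI
      exact heI (mem_insert _ _)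
  · intro I _
    exact Finset.mem_univ _
  · intro I _
    by_cases heI : e ∈ I
    · simp only [heI, if_true]
      rw [if_neg (fun h => h.2 rfl), insert_sdiff_singleton, insert_eq_of_mem heI]
    · simp only [heI, if_false]
      rw [if_pos (mem_insert _ _)]
      simp [heI]

theorem altSum_step {α : Type} [Fintype α] (L : Matroid (α ⊕ Bool)) (N : Matroid α)
    (h : ∀ X : Set (α ⊕ Bool),
      L.Indep X ↔ N.Indep (Sum.inl ⁻¹' X) ∧ (Sum.inr ⁻¹' X).Subsingleton) :
    altSum L = - altSum N := by
  classical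
  unfold altSum
  let e : Set (α ⊕ Bool) ≃ Set α × Set Bool :=
    { toFun := fun X => (Sum.inl ⁻¹' X, Sum.inr ⁻¹' X)
      invFun := fun P => Sum.inl '' P.1 ∪ Sum.inr '' P.2
      left_inv := fun X => (split X).symm
      right_inv := fun P => by
        ext x <;> simp }
  have h1 : (∑ X : Set (α ⊕ Bool), if L.Indep X then (-1 : ℤ) ^ X.ncard else 0)
      = ∑ P : Set α × Set Bool, (if N.Indep P.1 then (-1 : ℤ) ^ P.1.ncard else 0) *
          (if P.2.Subsingleton then (-1 : ℤ) ^ P.2.ncard else 0) := by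
    refine Fintype.sum_equiv e _ _ fun X => ?_
    have hc : X.ncard = (Sum.inl ⁻¹' X).ncard + (Sum.inr ⁻¹' X).ncard := by
      conv_lhs => rw [split X]
      rw [ncard_union_eq, ncard_image_of_injective _ Sum.inl_injective,
        ncard_image_of_injective _ Sum.inr_injective]
      rw [disjoint_left]
      rintro _ ⟨a, _, rfl⟩ ⟨b, _, h⟩
      exact Sum.inr_ne_inl h
    change _ = (if N.Indep (Sum.inl ⁻¹' X) then (-1 : ℤ) ^ (Sum.inl ⁻¹' X).ncard else 0) *
          (if (Sum.inr ⁻¹' X).Subsingleton then (-1 : ℤ) ^ (Sum.inr ⁻¹' X).ncard else 0)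
    rw [h X, hc, pow_add]
    by_cases ha : N.Indep (Sum.inl ⁻¹' X) <;> by_cases hb : (Sum.inr ⁻¹' X).Subsingleton <;>
      simp [ha, hb]
  rw [h1, Fintype.sum_prod_type, ← Finset.sum_neg_distrib]
  refine Finset.sum_congr rfl fun I _ => ?_
  have h2 := Finset.mul_sum (Finset.univ : Finset (Set Bool))
    (fun y => if y.Subsingleton then (-1 : ℤ) ^ y.ncard else 0)
    (if N.Indep I then (-1 : ℤ) ^ I.ncard else 0)
  refine h2.symm.trans ?_
  rw [sum_bool]
  ring

/-- the inductive statement -/
structure Good {α : Type} (M : Matroid α) (d : ℕ) : Prop where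
  ground : M.E = univ
  card : ∀ B, M.IsBase B → B.ncard = d
  top : topH M d = 4
  sub : ∀ M' : Matroid α, M'.E = univ → (∀ B, M'.IsBase B → M.IsBase B) → topH M' d ≠ 3

theorem ncard_le {α : Type} [Finite α] {M : Matroid α} {d : ℕ} (h : ∀ B, M.IsBase B → B.ncard = d)
    {I : Set α} (hI : M.Indep I) : I.ncard ≤ d := by
  obtain ⟨B, hB, hIB⟩ := hI.exists_isBase_superset
  rw [← h B hB]
  exact ncard_le_ncard hIB

theorem card_sum {α : Type} [Finite α] {B : Set (α ⊕ Bool)} {b : Bool}
    (h : Sum.inr ⁻¹' B = {b}) : B.ncard = (Sum.inl ⁻¹' B).ncard + 1 := by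
  conv_lhs => rw [split B]
  rw [ncard_union_eq, ncard_image_of_injective _ Sum.inl_injective,
    ncard_image_of_injective _ Sum.inr_injective, h, ncard_singleton]
  rw [disjoint_left]
  rintro _ ⟨a, _, rfl⟩ ⟨b, _, h⟩
  exact Sum.inr_ne_inl h

theorem topH_of_swap {α : Type} [Fintype α] (L : Matroid (α ⊕ Bool)) (N : Matroid α) (d : ℕ)
    (h : ∀ X : Set (α ⊕ Bool),
      L.Indep X ↔ N.Indep (Sum.inl ⁻¹' X) ∧ (Sum.inr ⁻¹' X).Subsingleton)
    (hL : ∀ B, L.IsBase B → B.ncard = d + 1) : topH L (d + 1) = topH N d := by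
  have hN : ∀ I, N.Indep I → I.ncard ≤ d := by
    intro I hI
    have h1 : L.Indep (Sum.inl '' I ∪ {Sum.inr true}) := by
      rw [h]
      constructor
      · convert hI using 1
        ext x; simp
      · intro x hx y hy
        simp at hx hy
        rw [hx, hy]
    have h2 := ncard_le hL h1
    rw [ncard_union_eq (by
      rw [disjoint_singleton_right]
      rintro ⟨a, _, h⟩
      exact Sum.inl_ne_inr h), ncard_image_of_injective _ Sum.inl_injective,
      ncard_singleton] at h2
    omega
  rw [topH_eq L (d + 1) fun I hI => ncard_le hL hI, topH_eq N d hN, altSum_step L N h]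
  ring

theorem Good.step {α : Type} [Fintype α] {M : Matroid α} {d : ℕ} (hM : Good M d) :
    Good (M.sum two) (d + 1) := by
  have hcard : ∀ B, (M.sum two).IsBase B → B.ncard = d + 1 := by
    intro B hB
    rw [Matroid.sum_isBase_iff] at hB
    obtain ⟨b, hb⟩ := (two_isBase _).1 hB.2
    rw [card_sum hb, hM.card _ hB.1]
  refine ⟨?_, hcard, ?_, ?_⟩
  · rw [Matroid.sum_ground, hM.ground, two_ground, image_univ, image_univ,
      range_inl_union_range_inr]
  · rw [topH_of_swap (M.sum two) M d (fun X => Matroid.sum_indep_iff _ _) hcard, hM.top]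
  · intro L hL hLM htop
    have hLcard : ∀ B, L.IsBase B → B.ncard = d + 1 := fun B hB => hcard B (hLM B hB)
    have h1 : ∀ B, L.IsBase B → ∃ b, Sum.inr ⁻¹' B = {b} := by
      intro B hB
      have h := hLM B hB
      rw [Matroid.sum_isBase_iff] at h
      exact (two_isBase _).1 h.2
    by_cases hcol : ∃ b : Bool, ∀ B, L.IsBase B → Sum.inr b ∈ B
    · -- a coloop makes the top h-number zero
      obtain ⟨b, hb⟩ := hcol
      rw [topH_eq L (d + 1) fun I hI => ncard_le hLcard hI,
        altSum_coloop L (Sum.inr b) hb] at htop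
      simp at htop
    · push Not at hcol
      have h2 : ∀ (C : Set α) (b c : Bool), L.IsBase (Sum.inl '' C ∪ {Sum.inr b}) →
          L.IsBase (Sum.inl '' C ∪ {Sum.inr c}) := by
        intro C b c hB
        by_cases hbc : b = c
        · rw [← hbc]; exact hB
        obtain ⟨B, hB', hbB⟩ := hcol b
        obtain ⟨y, hy, hex⟩ := hB.exchange hB' (show Sum.inr b ∈ _ from ⟨Or.inr rfl, hbB⟩)
        obtain ⟨a, ha⟩ := h1 _ hex
        have hy' : y = Sum.inr c := by
          have hab : a ∈ Sum.inr ⁻¹' (insert y ((Sum.inl '' C ∪ {Sum.inr b}) \ {Sum.inr b})) := by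
            rw [ha]; rfl
          rcases hab with hab | ⟨hab1 | hab1, hab2⟩
          · rcases y with y | y
            · exact absurd hab Sum.inr_ne_inl
            · have hyb : y ≠ b := by
                rintro rfl
                exact hy.2 (Or.inr rfl)
              cases y <;> cases b <;> cases c <;> simp_all
          · obtain ⟨x, _, hx⟩ := hab1
            exact absurd hx Sum.inl_ne_inr
          · exact absurd hab1 hab2
        rw [hy'] at hex
        convert hex using 1
        ext x
        rcases x with x | x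
        · simp
        · simp only [mem_union, mem_image, mem_singleton_iff, mem_insert_iff, mem_sdiff]
          constructor
          · rintro (⟨y, _, hy⟩ | h)
            · exact absurd hy Sum.inl_ne_inr
            · exact Or.inl h
          · rintro (h | ⟨⟨y, _, hy⟩ | h, h'⟩)
            · exact Or.inr h
            · exact absurd hy Sum.inl_ne_inr
            · exact absurd h h'
      have h3 := indep_of_swap L h1 h2
      rw [topH_of_swap L (L.comap Sum.inl) d h3 hLcard] at htop
      refine hM.sub (L.comap Sum.inl) ?_ ?_ htop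
      · rw [Matroid.comap_ground_eq, hL, preimage_univ]
      · intro B hB
        -- `B` with `true` is a base of `L`
        have h4 : L.Indep (Sum.inl '' B ∪ {Sum.inr true}) := by
          rw [h3]
          constructor
          · convert hB.indep using 1
            ext x; simp
          · intro x hx y hy
            simp at hx hy
            rw [hx, hy]
        obtain ⟨C, hC, hBC⟩ := h4.exists_isBase_superset
        obtain ⟨c, hc⟩ := h1 C hC
        have h5 : (L.comap Sum.inl).Indep (Sum.inl ⁻¹' C) := ((h3 C).1 hC.indep).1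
        have h6 : B = Sum.inl ⁻¹' C := hB.eq_of_subset_indep h5 fun x hx =>
          hBC (Or.inl ⟨x, hx, rfl⟩)
        have h7 := hLM C hC
        rw [Matroid.sum_isBase_iff, ← h6] at h7
        exact h7.1

/-! ### Rank two -/

/-- the classes of parallel elements: `{0, 1}`, `{2, 3}`, `{4}` -/
def cls : Fin 5 → Fin 3 := ![0, 0, 1, 1, 2]

/-- the uniform matroid of rank two on three elements -/
def U23 : Matroid (Fin 3) :=
  (IndepMatroid.ofFinitaryCardAugment univ (fun X => X.ncard ≤ 2)
    (by simp)
    (fun _ _ hY hXY => (ncard_le_ncard hXY).trans hY)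
    (fun X Y hX fX hY fY hlt => by
      obtain ⟨e, he, heX⟩ := exists_mem_notMem_of_ncard_lt_ncard hlt
      refine ⟨e, he, heX, ?_⟩
      rw [ncard_insert_of_notMem heX]
      omega)
    (fun Y hY => hY Y Subset.rfl (toFinite Y))
    (fun X hX => subset_univ _)).matroid

theorem U23_indep (X : Set (Fin 3)) : U23.Indep X ↔ X.ncard ≤ 2 := Iff.rfl

/-- the matroid of rank two on five elements with the parallel classes `{0, 1}`, `{2, 3}`,
`{4}` -/
def M₀ : Matroid (Fin 5) := U23.comap cls

theorem M₀_indep (I : Set (Fin 5)) : M₀.Indep I ↔ (cls '' I).ncard ≤ 2 ∧ InjOn cls I := by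
  rw [M₀, Matroid.comap_indep_iff, U23_indep]

theorem M₀_pair (i j : Fin 5) : M₀.Indep {i, j} ↔ i = j ∨ cls i ≠ cls j := by
  rw [M₀_indep, image_pair]
  constructor
  · rintro ⟨-, h⟩
    by_contra hc
    push Not at hc
    exact hc.1 (h (by simp) (by simp) hc.2)
  · intro h
    refine ⟨?_, ?_⟩
    · by_cases hc : cls i = cls j
      · rw [hc, pair_eq_singleton, ncard_singleton]; omega
      · rw [ncard_pair hc]
    · rintro x (rfl | rfl) y (rfl | rfl) hxy
      · rfl
      · rcases h with h | h
        · exact h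
        · exact absurd hxy h
      · rcases h with h | h
        · exact h.symm
        · exact absurd hxy.symm h
      · rfl

theorem M₀_ncard {I : Set (Fin 5)} (h : M₀.Indep I) : I.ncard ≤ 2 := by
  rw [M₀_indep] at h
  rw [← h.2.ncard_image]
  exact h.1

theorem M₀_isBase (B : Set (Fin 5)) :
    M₀.IsBase B ↔ ∃ i j, cls i ≠ cls j ∧ B = {i, j} := by
  have h2 : ∀ i j, cls i ≠ cls j → M₀.IsBase {i, j} := by
    intro i j hij
    rw [Matroid.isBase_iff_maximal_indep]
    refine ⟨(M₀_pair i j).2 (Or.inr hij), ?_⟩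
    intro Y hY hY'
    have h3 : ({i, j} : Set (Fin 5)).ncard = 2 := ncard_pair (fun h => hij (by rw [h]))
    exact (eq_of_subset_of_ncard_le hY' (by rw [h3]; exact M₀_ncard hY)).ge
  constructor
  · intro h
    have h1 : B.ncard = 2 := by
      rw [h.ncard_eq_ncard_of_isBase (h2 0 2 (by decide))]
      exact ncard_pair (by decide)
    obtain ⟨i, j, hij, rfl⟩ := ncard_eq_two.1 h1
    exact ⟨i, j, ((M₀_pair i j).1 h.indep).resolve_left hij, rfl⟩
  · rintro ⟨i, j, hij, rfl⟩
    exact h2 i j hij

/-- the sets with at most two elements -/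
def small : Finset (Finset (Fin 5)) :=
  {∅, {0}, {1}, {2}, {3}, {4}, {0, 1}, {0, 2}, {0, 3}, {0, 4}, {1, 2}, {1, 3}, {1, 4}, {2, 3},
    {2, 4}, {3, 4}}

theorem small_spec : ∀ I : Finset (Fin 5), I ∉ small → 3 ≤ I.card := by decide

open Classical in
/-- the alternating sum of a matroid with all bases among those of `M₀` -/
theorem altSum_formula (L : Matroid (Fin 5)) (hL : ∀ B, L.IsBase B → M₀.IsBase B) :
    altSum L = 1 - ((if L.Indep {0} then 1 else 0) + (if L.Indep {1} then 1 else 0) +
      (if L.Indep {2} then 1 else 0) + (if L.Indep {3} then 1 else 0) +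
      (if L.Indep {4} then 1 else 0)) +
      ((if L.Indep {0, 2} then 1 else 0) + (if L.Indep {0, 3} then 1 else 0) +
      (if L.Indep {1, 2} then 1 else 0) + (if L.Indep {1, 3} then 1 else 0) +
      (if L.Indep {0, 4} then 1 else 0) + (if L.Indep {1, 4} then 1 else 0) +
      (if L.Indep {2, 4} then 1 else 0) + (if L.Indep {3, 4} then 1 else 0)) := by
  have hM : ∀ I, L.Indep I → M₀.Indep I := by
    intro I hI
    obtain ⟨B, hB, hIB⟩ := hI.exists_isBase_superset
    exact (hL B hB).indep.subset hIB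
  have h1 : altSum L = ∑ I : Finset (Fin 5), if L.Indep (I : Set (Fin 5)) then (-1 : ℤ) ^ I.card
      else 0 := by
    unfold altSum
    symm
    refine Fintype.sum_equiv (Fintype.finsetEquivSet) _ _ fun J => ?_
    have h : (Fintype.finsetEquivSet J) = (J : Set (Fin 5)) := rfl
    rw [h, ncard_coe_finset]
  have h2 : (∑ I : Finset (Fin 5), if L.Indep (I : Set (Fin 5)) then (-1 : ℤ) ^ I.card else 0)
      = ∑ I ∈ small, if L.Indep (I : Set (Fin 5)) then (-1 : ℤ) ^ I.card else 0 := by
    symm
    refine Finset.sum_subset (Finset.subset_univ _) fun I _ hI => ?_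
    rw [if_neg]
    intro h
    have h3 := M₀_ncard (hM _ h)
    rw [ncard_coe_finset] at h3
    have := small_spec I hI
    omega
  have h01 : ¬ L.Indep {0, 1} := fun h => by
    have := (M₀_pair 0 1).1 (hM _ h)
    revert this; decide
  have h23 : ¬ L.Indep {2, 3} := fun h => by
    have := (M₀_pair 2 3).1 (hM _ h)
    revert this; decide
  rw [h1, h2, small]
  repeat rw [Finset.sum_insert (by decide)]
  rw [Finset.sum_singleton]
  have c0 : ∀ i : Fin 5, ({i} : Finset (Fin 5)).card = 1 := fun i => Finset.card_singleton i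
  have c1 : ({0, 1} : Finset (Fin 5)).card = 2 := rfl
  have c2 : ({0, 2} : Finset (Fin 5)).card = 2 := rfl
  have c3 : ({0, 3} : Finset (Fin 5)).card = 2 := rfl
  have c4 : ({0, 4} : Finset (Fin 5)).card = 2 := rfl
  have c5 : ({1, 2} : Finset (Fin 5)).card = 2 := rfl
  have c6 : ({1, 3} : Finset (Fin 5)).card = 2 := rfl
  have c7 : ({1, 4} : Finset (Fin 5)).card = 2 := rfl
  have c8 : ({2, 3} : Finset (Fin 5)).card = 2 := rfl
  have c9 : ({2, 4} : Finset (Fin 5)).card = 2 := rfl
  have c10 : ({3, 4} : Finset (Fin 5)).card = 2 := rfl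
  simp only [c0, c1, c2, c3, c4, c5, c6, c7, c8, c9, c10, Finset.card_empty, Finset.coe_insert,
    Finset.coe_singleton, Finset.coe_empty, L.empty_indep, if_true, h01, h23, if_false, pow_zero,
    pow_one, pow_two]
  norm_num
  have e : ∀ (P : Prop), (if P then (-1 : ℤ) else 0) = - (if P then (1 : ℤ) else 0) := by
    intro P
    split_ifs <;> simp
  simp only [e]
  ring

theorem final : ∀ b02 b03 b12 b13 b04 b14 b24 b34 : Bool,
    (b12 → b03 → b02) → (b02 → b13 → b03) → (b02 → b13 → b12) → (b03 → b12 → b13) →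
    (b02 → b14 → b04) → (b12 → b04 → b14) → (b12 → b34 → b24) → (b03 → b24 → b34) →
    (1 : ℤ) - ((if b02 || b03 || b04 then 1 else 0) + (if b12 || b13 || b14 then 1 else 0) +
      (if b02 || b12 || b24 then 1 else 0) + (if b03 || b13 || b34 then 1 else 0) +
      (if b04 || b14 || b24 || b34 then 1 else 0)) +
      ((if b02 then 1 else 0) + (if b03 then 1 else 0) + (if b12 then 1 else 0) +
      (if b13 then 1 else 0) + (if b04 then 1 else 0) + (if b14 then 1 else 0) +
      (if b24 then 1 else 0) + (if b34 then 1 else 0)) ≠ 3 := by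
  decide

theorem cls_ne_of_isBase {L : Matroid (Fin 5)} (hL : ∀ B, L.IsBase B → M₀.IsBase B) {i j : Fin 5}
    (h : L.IsBase {i, j}) : cls i ≠ cls j := by
  obtain ⟨k, l, hkl, he⟩ := (M₀_isBase _).1 (hL _ h)
  have hk : k ∈ ({i, j} : Set (Fin 5)) := by rw [he]; simp
  have hl : l ∈ ({i, j} : Set (Fin 5)) := by rw [he]; simp
  rcases hk with rfl | rfl <;> rcases hl with rfl | rfl
  · exact absurd rfl hkl
  · exact hkl
  · exact hkl.symm
  · exact absurd rfl hkl

/-- exchange for bases of size two -/
theorem exch {L : Matroid (Fin 5)} (hL : ∀ B, L.IsBase B → M₀.IsBase B) {i j k l : Fin 5}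
    (h1 : L.IsBase {i, j}) (h2 : L.IsBase {k, l}) : L.IsBase {i, k} ∨ L.IsBase {i, l} := by
  have hij := cls_ne_of_isBase hL h1
  have hij' : i ≠ j := fun h => hij (by rw [h])
  by_cases hj : j ∈ ({k, l} : Set (Fin 5))
  · rcases hj with rfl | rfl
    · exact Or.inl h1
    · exact Or.inr h1
  · obtain ⟨y, hy, hex⟩ := h1.exchange h2 (show j ∈ _ from ⟨Or.inr rfl, hj⟩)
    have h3 : insert y (({i, j} : Set (Fin 5)) \ {j}) = {i, y} := by
      ext x
      simp only [mem_insert_iff, mem_sdiff, mem_singleton_iff]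
      constructor
      · rintro (h | ⟨h | h, h'⟩)
        · exact Or.inr h
        · exact Or.inl h
        · exact absurd h h'
      · rintro (h | h)
        · exact Or.inr ⟨Or.inl h, fun h' => hij' (h.symm.trans h')⟩
        · exact Or.inl h
    rw [h3] at hex
    rcases hy.1 with rfl | rfl
    · exact Or.inl hex
    · exact Or.inr hex

theorem indep_pair {L : Matroid (Fin 5)} (hL : ∀ B, L.IsBase B → M₀.IsBase B) {i j : Fin 5}
    (hij : i ≠ j) : L.Indep {i, j} ↔ L.IsBase {i, j} := by
  refine ⟨fun h => ?_, fun h => h.indep⟩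
  obtain ⟨B, hB, hIB⟩ := h.exists_isBase_superset
  obtain ⟨k, l, hkl, rfl⟩ := (M₀_isBase _).1 (hL _ hB)
  have h1 : ({i, j} : Set (Fin 5)) = {k, l} := by
    refine eq_of_subset_of_ncard_le hIB ?_
    rw [ncard_pair hij, ncard_pair fun h => hkl (by rw [h])]
  rw [h1]
  exact hB

theorem indep_single {L : Matroid (Fin 5)} (hL : ∀ B, L.IsBase B → M₀.IsBase B) (i : Fin 5) :
    L.Indep {i} ↔ ∃ j, L.IsBase {i, j} := by
  constructor
  · intro h
    obtain ⟨B, hB, hIB⟩ := h.exists_isBase_superset
    obtain ⟨k, l, hkl, rfl⟩ := (M₀_isBase _).1 (hL _ hB)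
    rcases hIB rfl with rfl | rfl
    · exact ⟨l, hB⟩
    · exact ⟨k, by rw [pair_comm]; exact hB⟩
  · rintro ⟨j, h⟩
    exact h.indep.subset (by simp)

theorem altSum_ne_three (L : Matroid (Fin 5)) (hL : ∀ B, L.IsBase B → M₀.IsBase B) :
    altSum L ≠ 3 := by
  classical
  rw [altSum_formula L hL]
  let b : Fin 5 → Fin 5 → Bool := fun i j => decide (L.IsBase {i, j})
  have hb : ∀ i j, L.IsBase {i, j} ↔ b i j = true := fun i j => by simp [b]
  have hc : ∀ i j, L.IsBase {i, j} ↔ L.IsBase {j, i} := fun i j => by rw [pair_comm]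
  have hz : ∀ i j, cls i = cls j → ¬ L.IsBase {i, j} := fun i j h h' =>
    cls_ne_of_isBase hL h' h
  have s0 : L.Indep {0} ↔ (b 0 2 || b 0 3 || b 0 4) = true := by
    rw [indep_single hL]
    constructor
    · rintro ⟨j, hj⟩
      fin_cases j
      · exact absurd hj (hz _ _ rfl)
      · exact absurd hj (hz _ _ rfl)
      · simp [(hb 0 2).1 hj]
      · simp [(hb 0 3).1 hj]
      · simp [(hb 0 4).1 hj]
    · intro h
      simp only [Bool.or_eq_true] at h
      rcases h with (h | h) | h
      · exact ⟨2, (hb _ _).2 h⟩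
      · exact ⟨3, (hb _ _).2 h⟩
      · exact ⟨4, (hb _ _).2 h⟩
  have s1 : L.Indep {1} ↔ (b 1 2 || b 1 3 || b 1 4) = true := by
    rw [indep_single hL]
    constructor
    · rintro ⟨j, hj⟩
      fin_cases j
      · exact absurd hj (hz _ _ rfl)
      · exact absurd hj (hz _ _ rfl)
      · simp [(hb 1 2).1 hj]
      · simp [(hb 1 3).1 hj]
      · simp [(hb 1 4).1 hj]
    · intro h
      simp only [Bool.or_eq_true] at h
      rcases h with (h | h) | h
      · exact ⟨2, (hb _ _).2 h⟩
      · exact ⟨3, (hb _ _).2 h⟩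
      · exact ⟨4, (hb _ _).2 h⟩
  have s2 : L.Indep {2} ↔ (b 0 2 || b 1 2 || b 2 4) = true := by
    rw [indep_single hL]
    constructor
    · rintro ⟨j, hj⟩
      fin_cases j
      · simp [(hb 0 2).1 ((hc _ _).1 hj)]
      · simp [(hb 1 2).1 ((hc _ _).1 hj)]
      · exact absurd hj (hz _ _ rfl)
      · exact absurd hj (hz _ _ rfl)
      · simp [(hb 2 4).1 hj]
    · intro h
      simp only [Bool.or_eq_true] at h
      rcases h with (h | h) | h
      · exact ⟨0, (hc _ _).1 ((hb _ _).2 h)⟩
      · exact ⟨1, (hc _ _).1 ((hb _ _).2 h)⟩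
      · exact ⟨4, (hb _ _).2 h⟩
  have s3 : L.Indep {3} ↔ (b 0 3 || b 1 3 || b 3 4) = true := by
    rw [indep_single hL]
    constructor
    · rintro ⟨j, hj⟩
      fin_cases j
      · simp [(hb 0 3).1 ((hc _ _).1 hj)]
      · simp [(hb 1 3).1 ((hc _ _).1 hj)]
      · exact absurd hj (hz _ _ rfl)
      · exact absurd hj (hz _ _ rfl)
      · simp [(hb 3 4).1 hj]
    · intro h
      simp only [Bool.or_eq_true] at h
      rcases h with (h | h) | h
      · exact ⟨0, (hc _ _).1 ((hb _ _).2 h)⟩
      · exact ⟨1, (hc _ _).1 ((hb _ _).2 h)⟩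
      · exact ⟨4, (hb _ _).2 h⟩
  have s4 : L.Indep {4} ↔ (b 0 4 || b 1 4 || b 2 4 || b 3 4) = true := by
    rw [indep_single hL]
    constructor
    · rintro ⟨j, hj⟩
      fin_cases j
      · simp [(hb 0 4).1 ((hc _ _).1 hj)]
      · simp [(hb 1 4).1 ((hc _ _).1 hj)]
      · simp [(hb 2 4).1 ((hc _ _).1 hj)]
      · simp [(hb 3 4).1 ((hc _ _).1 hj)]
      · exact absurd hj (hz _ _ rfl)
    · intro h
      simp only [Bool.or_eq_true] at h
      rcases h with ((h | h) | h) | h
      · exact ⟨0, (hc _ _).1 ((hb _ _).2 h)⟩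
      · exact ⟨1, (hc _ _).1 ((hb _ _).2 h)⟩
      · exact ⟨2, (hc _ _).1 ((hb _ _).2 h)⟩
      · exact ⟨3, (hc _ _).1 ((hb _ _).2 h)⟩
  have p : ∀ i j : Fin 5, i ≠ j → (L.Indep {i, j} ↔ b i j = true) := fun i j hij => by
    rw [indep_pair hL hij, hb]
  have bs : ∀ i j, b i j = b j i := fun i j => by
    simp only [b, pair_comm]
  have ex : ∀ i j k l, b i j = true → b k l = true → b i k = true ∨ b i l = true := by
    intro i j k l h1 h2
    rw [← hb, ← hb]
    exact exch hL ((hb _ _).2 h1) ((hb _ _).2 h2)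
  have z : ∀ i j, cls i = cls j → b i j = true → False := fun i j h h' =>
    hz i j h ((hb _ _).2 h')
  rw [s0, s1, s2, s3, s4, p 0 2 (by decide), p 0 3 (by decide), p 1 2 (by decide),
    p 1 3 (by decide), p 0 4 (by decide), p 1 4 (by decide), p 2 4 (by decide),
    p 3 4 (by decide)]
  have key := final (b 0 2) (b 0 3) (b 1 2) (b 1 3) (b 0 4) (b 1 4) (b 2 4) (b 3 4)
    ?_ ?_ ?_ ?_ ?_ ?_ ?_ ?_
  · convert key
  · intro h1 h2
    rw [bs] at h1 h2 ⊢
    exact (ex 2 1 3 0 h1 h2).resolve_left (z 2 3 rfl)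
  · intro h1 h2
    exact (ex 0 2 1 3 h1 h2).resolve_left (z 0 1 rfl)
  · intro h1 h2
    rw [bs] at h1 h2 ⊢
    exact (ex 2 0 3 1 h1 h2).resolve_left (z 2 3 rfl)
  · intro h1 h2
    rw [bs] at h1 h2 ⊢
    exact (ex 3 0 2 1 h1 h2).resolve_left (z 3 2 rfl)
  · intro h1 h2
    rw [bs] at h2
    exact (ex 0 2 4 1 h1 h2).resolve_right (z 0 1 rfl)
  · intro h1 h2
    exact (ex 1 2 0 4 h1 h2).resolve_left (z 1 0 rfl)
  · intro h1 h2
    rw [bs] at h1
    exact (ex 2 1 3 4 h1 h2).resolve_left (z 2 3 rfl)
  · intro h1 h2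
    rw [bs] at h1
    exact (ex 3 0 2 4 h1 h2).resolve_left (z 3 2 rfl)

theorem good_M₀ : Good M₀ 2 := by
  have hcard : ∀ B, M₀.IsBase B → B.ncard = 2 := by
    intro B hB
    obtain ⟨i, j, hij, rfl⟩ := (M₀_isBase _).1 hB
    exact ncard_pair fun h => hij (by rw [h])
  refine ⟨rfl, hcard, ?_, ?_⟩
  · rw [topH_eq M₀ 2 fun I hI => M₀_ncard hI, altSum_formula M₀ fun _ h => h]
    have h1 : ∀ i, M₀.Indep {i} := fun i => by
      have := (M₀_pair i i).2 (Or.inl rfl)
      rwa [pair_eq_singleton] at this
    have h2 : ∀ i j, cls i ≠ cls j → M₀.Indep {i, j} := fun i j h => (M₀_pair i j).2 (Or.inr h)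
    simp only [h1, if_true, h2 0 2 (by decide), h2 0 3 (by decide), h2 1 2 (by decide),
      h2 1 3 (by decide), h2 0 4 (by decide), h2 1 4 (by decide), h2 2 4 (by decide),
      h2 3 4 (by decide)]
    norm_num
  · intro L _ hL
    rw [topH_eq L 2 fun I hI => ncard_le (fun B hB => hcard B (hL B hB)) hI]
    simpa using altSum_ne_three L hL

theorem exists_good (d : ℕ) (hd : 2 ≤ d) :
    ∃ (α : Type) (_ : Fintype α) (M : Matroid α), Good M d := by
  induction d, hd using Nat.le_induction with
  | base => exact ⟨Fin 5, inferInstance, M₀, good_M₀⟩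
  | succ d _ ih =>
    obtain ⟨α, hα, M, hM⟩ := ih
    exact ⟨α ⊕ Bool, inferInstance, M.sum two, hM.step⟩

/-- For every `d ≥ 2` there is a matroid `M` of rank `d` on a finite set, with top h-number `≥ 1`,
such that no matroid on the same set whose bases are all bases of `M` has top h-number
`h_d(M) - 1`. -/
theorem result (d : ℕ) (hd : 2 ≤ d) :
    ∃ (α : Type) (_ : Finite α) (M : Matroid α),
      M.E = univ ∧ (∀ B, M.IsBase B → B.ncard = d) ∧ 1 ≤ topH M d ∧
      ∀ M' : Matroid α, M'.E = univ → (∀ B, M'.IsBase B → M.IsBase B) →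
        topH M' d ≠ topH M d - 1 := by
  obtain ⟨α, hα, M, hM⟩ := exists_good d hd
  refine ⟨α, inferInstance, M, hM.ground, hM.card, ?_, ?_⟩
  · rw [hM.top]; norm_num
  · intro M' hE hB
    rw [hM.top]
    exact hM.sub M' hE hB

end Pool.Agent.Results.MP_35fef3_co.NoSubfamilyOneLess
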